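import Pool.Agent.helper28.SN.SpecC

set_option autoImplicit false

open scoped Pointwise ContDiff
open MeasureTheory Set Filter Topology Pool.Agent.helper83.SC Pool.Agent.helper69.SN

namespace Pool.Agent.helper28.SN

/-- the derivative of the regularization. -/
noncomputable def cREG_b (t : ℝ) : ℝ := Real.smoothTransition ((t + 1) / 2)

lemma cREG_b_cd : ContDiff ℝ ∞ cREG_b := by
  have h : ContDiff ℝ ∞ Real.smoothTransition := Real.smoothTransition.contDiff
  exact h.comp ((contDiff_id.add contDiff_const).div_const 2)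

lemma cREG_b_cont : Continuous cREG_b := cREG_b_cd.continuous

lemma cREG_b_mono : Monotone cREG_b := by
  intro x y h
  exact Real.smoothTransition.monotone (by linarith)

lemma cREG_b_nn (t : ℝ) : 0 ≤ cREG_b t := Real.smoothTransition.nonneg _

lemma cREG_b_le (t : ℝ) : cREG_b t ≤ 1 := Real.smoothTransition.le_one _

lemma cREG_b_sym (t : ℝ) : cREG_b t + cREG_b (-t) = 1 := by
  unfold cREG_b Real.smoothTransition
  have h1 : 1 - (t + 1) / 2 = (-t + 1) / 2 := by ring
  have h2 : 1 - (-t + 1) / 2 = (t + 1) / 2 := by ring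
  rw [h1, h2]
  have h3 : 0 < expNegInvGlue ((t + 1) / 2) + expNegInvGlue ((-t + 1) / 2) := by
    have := Real.smoothTransition.pos_denom ((t + 1) / 2)
    rwa [h1] at this
  rw [add_comm (expNegInvGlue ((-t + 1) / 2)), ← add_div, div_self h3.ne']

/-- the regularization. -/
noncomputable def cREG_t (t : ℝ) : ℝ := ∫ s in (-1)..t, cREG_b s

lemma cREG_t_deriv (t : ℝ) : HasDerivAt cREG_t (cREG_b t) t := by
  exact intervalIntegral.integral_hasDerivAt_right (cREG_b_cont.intervalIntegrable _ _)
    (cREG_b_cont.stronglyMeasurableAtFilter _ _) cREG_b_cont.continuousAt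

lemma cREG_t_d : deriv cREG_t = cREG_b := funext fun t => (cREG_t_deriv t).deriv

lemma cREG_t_one : cREG_t 1 = 1 := by
  have h1 : ∫ s in (-1:ℝ)..1, cREG_b (-s) = ∫ s in (-1:ℝ)..1, cREG_b s := by
    rw [intervalIntegral.integral_comp_neg]
    simp
  have h2 : ∫ s in (-1:ℝ)..1, (cREG_b s + cREG_b (-s)) = 2 := by
    simp_rw [cREG_b_sym]
    norm_num
  have hc : Continuous (fun s : ℝ => cREG_b (-s)) := cREG_b_cont.comp continuous_neg
  rw [intervalIntegral.integral_add (cREG_b_cont.intervalIntegrable _ _)
    (hc.intervalIntegrable _ _), h1] at h2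
  unfold cREG_t
  linarith

theorem cREG : cREG_stmt := by
  have hd : Differentiable ℝ cREG_t := fun t => (cREG_t_deriv t).differentiableAt
  have hmono : Monotone cREG_t := monotone_of_deriv_nonneg hd (fun t => by rw [cREG_t_d]; exact cREG_b_nn t)
  have hanti : Antitone (fun t => cREG_t t - t) := by
    refine antitone_of_deriv_nonpos (hd.sub differentiable_id) (fun t => ?_)
    have h := ((cREG_t_deriv t).sub (hasDerivAt_id t)).deriv
    have h' : deriv (fun t => cREG_t t - t) t = cREG_b t - 1 := h
    rw [h']
    linarith [cREG_b_le t]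
  have hz : ∀ t, t ≤ -1 → cREG_t t = 0 := by
    intro t ht
    unfold cREG_t
    rw [intervalIntegral.integral_congr (g := fun _ => (0 : ℝ))]
    · simp
    · intro s hs
      rw [uIcc_of_ge ht] at hs
      exact Real.smoothTransition.zero_of_nonpos (by linarith [hs.2])
  have hs : ∀ t, 1 ≤ t → cREG_t t = t := by
    intro t ht
    have h1 : cREG_t t = cREG_t 1 + ∫ s in (1:ℝ)..t, cREG_b s := by
      unfold cREG_t
      rw [intervalIntegral.integral_add_adjacent_intervals (cREG_b_cont.intervalIntegrable _ _)
        (cREG_b_cont.intervalIntegrable _ _)]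
    have h2 : ∫ s in (1:ℝ)..t, cREG_b s = ∫ s in (1:ℝ)..t, (1 : ℝ) := by
      refine intervalIntegral.integral_congr ?_
      intro s hs
      rw [uIcc_of_le ht] at hs
      exact Real.smoothTransition.one_of_one_le (by linarith [hs.1])
    rw [h1, h2, cREG_t_one]
    simp
  have hge : ∀ t, max t 0 ≤ cREG_t t := by
    intro t
    refine max_le ?_ ?_
    · rcases le_total 1 t with h | h
      · rw [hs t h]
      · have := hanti h
        simp only [cREG_t_one, sub_self] at this
        linarith
    · rcases le_total t (-1) with h | h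
      · rw [hz t h]
      · have := hmono h
        rwa [hz (-1) le_rfl] at this
  refine ⟨cREG_t, ?_, hz, hs, hge, ?_, ?_, ?_, ?_⟩
  · rw [contDiff_infty_iff_deriv, cREG_t_d]
    exact ⟨hd, cREG_b_cd⟩
  · intro t
    rcases le_total 1 t with h | h
    · rw [hs t h]
      linarith [le_max_left t 0]
    · have := hmono h
      rw [cREG_t_one] at this
      linarith [le_max_right t 0]
  · intro t
    rw [cREG_t_d]
    exact cREG_b_nn t
  · intro t
    rw [cREG_t_d]
    exact cREG_b_le t
  · intro t
    rw [cREG_t_d]
    exact cREG_b_mono.deriv_nonneg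

end Pool.Agent.helper28.SN
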